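import Pool.Agent.Helper39.PF.Fac

set_option autoImplicit false
set_option maxHeartbeats 1000000

open Complex Filter Topology Set Metric

namespace Pool.Agent.Helper39.PF

/-- growth of order at most `κ` -/
def Grow (F : ℂ → ℂ) (C κ : ℝ) : Prop := ∀ z : ℂ, ‖F z‖ ≤ Real.exp (C * (1 + ‖z‖) ^ κ)

lemma PP_low {F : ℂ → ℂ} {S : Finset ℂ} {R : ℝ} (hR : 0 < R) (hS : ∀ a ∈ S, ‖a‖ ≤ R) {z : ℂ} (hz : ‖z‖ = 4 * R) :
    (3 * R) ^ (∑ a ∈ S, analyticOrderNatAt F a) ≤ ‖PP F S z‖ := by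
  rw [PP, norm_prod, ← Finset.prod_pow_eq_pow_sum]
  apply Finset.prod_le_prod (fun a _ => by positivity)
  intro a ha
  rw [norm_pow]
  apply pow_le_pow_left₀ (by positivity)
  have := norm_sub_norm_le z a
  have := hS a ha
  linarith

lemma PP_zero {F : ℂ → ℂ} {S : Finset ℂ} {R : ℝ} (hS : ∀ a ∈ S, ‖a‖ ≤ R) :
    ‖PP F S 0‖ ≤ R ^ (∑ a ∈ S, analyticOrderNatAt F a) := by
  rw [PP, norm_prod, ← Finset.prod_pow_eq_pow_sum]
  apply Finset.prod_le_prod (fun a _ => by positivity)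
  intro a ha
  rw [norm_pow, zero_sub, norm_neg]
  exact pow_le_pow_left₀ (norm_nonneg _) (hS a ha) _

/-- the maximum principle for the cofactor -/
lemma H_bound {F H : ℂ → ℂ} {C κ : ℝ} (hg : Grow F C κ) (hH : Differentiable ℂ H)
    {S : Finset ℂ} (hf : ∀ z, F z = PP F S z * H z) {R : ℝ} (hR : 0 < R) (hS : ∀ a ∈ S, ‖a‖ ≤ R) {z : ℂ}
    (hz : ‖z‖ ≤ 4 * R) :
    ‖H z‖ * (3 * R) ^ (∑ a ∈ S, analyticOrderNatAt F a) ≤ Real.exp (C * (1 + 4 * R) ^ κ) := by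
  set N := ∑ a ∈ S, analyticOrderNatAt F a with hN
  have h3 : 0 < (3 * R) ^ N := by positivity
  rw [← le_div_iff₀ h3]
  have h4 : (0 : ℝ) < 4 * R := by positivity
  refine norm_le_of_forall_mem_frontier_norm_le (U := ball (0 : ℂ) (4 * R)) isBounded_ball
    hH.diffContOnCl (fun w hw => ?_) ?_
  · rw [frontier_ball _ h4.ne', mem_sphere_zero_iff_norm] at hw
    rw [le_div_iff₀ h3]
    have h1 := PP_low (F := F) hR hS hw
    have h2 := hg w
    rw [hf w, norm_mul, hw] at h2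
    calc ‖H w‖ * (3 * R) ^ N ≤ ‖H w‖ * ‖PP F S w‖ := mul_le_mul_of_nonneg_left h1 (norm_nonneg _)
      _ = ‖PP F S w‖ * ‖H w‖ := mul_comm _ _
      _ ≤ _ := h2
  · rw [closure_ball _ h4.ne', mem_closedBall_zero_iff]
    exact hz

lemma H_zero {F H : ℂ → ℂ} {S : Finset ℂ} (hf : ∀ z, F z = PP F S z * H z) {R : ℝ} (hS : ∀ a ∈ S, ‖a‖ ≤ R) :
    ‖F 0‖ ≤ R ^ (∑ a ∈ S, analyticOrderNatAt F a) * ‖H 0‖ := by
  rw [hf 0, norm_mul]
  exact mul_le_mul_of_nonneg_right (PP_zero hS) (norm_nonneg _)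

/-- the cofactor, normalised at the origin -/
lemma H_ratio {F H : ℂ → ℂ} {C κ : ℝ} (hg : Grow F C κ) (hH : Differentiable ℂ H)
    {S : Finset ℂ} (hf : ∀ z, F z = PP F S z * H z) {R : ℝ} (hR : 0 < R) (hS : ∀ a ∈ S, ‖a‖ ≤ R) {z : ℂ}
    (hz : ‖z‖ ≤ 4 * R) :
    ‖F 0‖ * ‖H z‖ ≤ Real.exp (C * (1 + 4 * R) ^ κ) * ‖H 0‖ := by
  have h1 := H_bound hg hH hf hR hS hz
  have h2 := H_zero hf hS
  set N := ∑ a ∈ S, analyticOrderNatAt F a with hN
  have h3 : R ^ N ≤ (3 * R) ^ N := pow_le_pow_left₀ hR.le (by linarith) N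
  calc ‖F 0‖ * ‖H z‖ ≤ (R ^ N * ‖H 0‖) * ‖H z‖ := mul_le_mul_of_nonneg_right h2 (norm_nonneg _)
    _ = R ^ N * (‖H z‖ * ‖H 0‖) := by ring
    _ ≤ (3 * R) ^ N * (‖H z‖ * ‖H 0‖) := mul_le_mul_of_nonneg_right h3 (by positivity)
    _ = (‖H z‖ * (3 * R) ^ N) * ‖H 0‖ := by ring
    _ ≤ _ := mul_le_mul_of_nonneg_right h1 (norm_nonneg _)

lemma pow_bound {κ R : ℝ} (hκ : 0 ≤ κ) (hR : 1 ≤ R) : (1 + 4 * R) ^ κ ≤ 5 ^ κ * R ^ κ := by
  rw [← Real.mul_rpow (by norm_num) (by linarith)]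
  exact Real.rpow_le_rpow (by linarith) (by linarith) hκ

/-- the number of zeros -/
lemma count {F : ℂ → ℂ} {C κ : ℝ} (hC : 0 ≤ C) (hκ : 0 ≤ κ) (hF : Differentiable ℂ F) (hg : Grow F C κ)
    (h0 : F 0 ≠ 0) : ∃ A : ℝ, 1 ≤ A ∧ ∀ R : ℝ, 1 ≤ R →
      C * (1 + 4 * R) ^ κ + |Real.log ‖F 0‖| + 1 ≤ A * R ^ κ ∧
      ∀ S : Finset ℂ, (∀ a ∈ S, ‖a‖ ≤ R) → ((∑ a ∈ S, analyticOrderNatAt F a : ℕ) : ℝ) ≤ A * R ^ κ := by
  refine ⟨C * 5 ^ κ + |Real.log ‖F 0‖| + 1, ?_, fun R hR => ?_⟩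
  · have : 0 ≤ C * 5 ^ κ := by positivity
    linarith [abs_nonneg (Real.log ‖F 0‖)]
  have hRκ : 1 ≤ R ^ κ := Real.one_le_rpow hR hκ
  have hb : C * (1 + 4 * R) ^ κ + |Real.log ‖F 0‖| + 1 ≤ (C * 5 ^ κ + |Real.log ‖F 0‖| + 1) * R ^ κ := by
    have h1 := mul_le_mul_of_nonneg_left (pow_bound hκ hR) hC
    have h2 := mul_le_mul_of_nonneg_left hRκ (add_nonneg (abs_nonneg (Real.log ‖F 0‖)) zero_le_one)
    nlinarith
  refine ⟨hb, fun S hS => ?_⟩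
  obtain ⟨H, hH, hf, hH0, _⟩ := factor hF ⟨0, h0⟩ S
  have hR0 : 0 < R := by linarith
  have h1 := H_bound hg hH hf hR0 hS (z := 0) (by rw [norm_zero]; positivity)
  have h2 := H_zero hf hS
  set N := ∑ a ∈ S, analyticOrderNatAt F a with hN
  have h3 : (3 : ℝ) ^ N * ‖F 0‖ ≤ Real.exp (C * (1 + 4 * R) ^ κ) := by
    calc (3 : ℝ) ^ N * ‖F 0‖ ≤ 3 ^ N * (R ^ N * ‖H 0‖) := mul_le_mul_of_nonneg_left h2 (by positivity)
      _ = ‖H 0‖ * (3 * R) ^ N := by rw [mul_pow]; ring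
      _ ≤ _ := h1
  have hF0 : 0 < ‖F 0‖ := norm_pos_iff.2 h0
  have h4 := Real.log_le_log (by positivity) h3
  rw [Real.log_exp, Real.log_mul (by positivity) hF0.ne', Real.log_pow] at h4
  have h5 : 1 ≤ Real.log 3 := by
    rw [Real.le_log_iff_exp_le (by norm_num)]
    have := Real.exp_one_lt_d9
    linarith
  have h6 : (N : ℝ) * 1 ≤ N * Real.log 3 := mul_le_mul_of_nonneg_left h5 (Nat.cast_nonneg N)
  have h7 := neg_abs_le (Real.log ‖F 0‖)
  linarith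

/-- finitely many zeros in a disc -/
lemma finite_zeros {F : ℂ → ℂ} {C κ : ℝ} (hC : 0 ≤ C) (hκ : 0 ≤ κ) (hF : Differentiable ℂ F) (hg : Grow F C κ)
    (h0 : F 0 ≠ 0) (R : ℝ) : {z : ℂ | F z = 0 ∧ ‖z‖ ≤ R}.Finite := by
  obtain ⟨A, hA1, hA⟩ := count hC hκ hF hg h0
  by_contra hinf
  set R' := max R 1 with hR'
  obtain ⟨n, hn⟩ := exists_nat_gt (A * R' ^ κ)
  obtain ⟨S, hS, hSn⟩ := Set.Infinite.exists_subset_card_eq hinf n
  have h1 := (hA R' (le_max_right _ _)).2 S (fun a ha => (hS ha).2.trans (le_max_left _ _))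
  have h2 : n ≤ ∑ a ∈ S, analyticOrderNatAt F a := by
    calc n = ∑ a ∈ S, 1 := by rw [Finset.sum_const, smul_eq_mul, mul_one, hSn]
      _ ≤ _ := Finset.sum_le_sum fun a ha => ord_pos hF ⟨0, h0⟩ (hS ha).1
  have h3 : (n : ℝ) ≤ ((∑ a ∈ S, analyticOrderNatAt F a : ℕ) : ℝ) := by exact_mod_cast h2
  linarith

/-- summability over the zeros -/
theorem summ {F : ℂ → ℂ} {C κ : ℝ} (hC : 0 ≤ C) (hκ : 0 ≤ κ) (hκ2 : κ < 2) (hF : Differentiable ℂ F)
    (hg : Grow F C κ) (h0 : F 0 ≠ 0) :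
    Summable fun z : ℂ => (analyticOrderNatAt F z : ℝ) / (1 + ‖z‖) ^ 2 := by
  classical
  obtain ⟨A, hA1, hA⟩ := count hC hκ hF hg h0
  set q : ℝ := 2 ^ κ / 4 with hq
  have hq0 : 0 ≤ q := by positivity
  have hq1 : q < 1 := by
    rw [hq, div_lt_one (by norm_num)]
    calc (2 : ℝ) ^ κ < 2 ^ (2 : ℝ) := Real.rpow_lt_rpow_of_exponent_lt (by norm_num) hκ2
      _ = 4 := by norm_num
  set g : ℕ → ℂ → ℝ := fun j z => (1 / 4 : ℝ) ^ j * (if 1 + ‖z‖ ≤ 2 ^ j then (analyticOrderNatAt F z : ℝ) else 0)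
    with hgdef
  have hg0 : ∀ j z, 0 ≤ g j z := by
    intro j z
    rw [hgdef]
    apply mul_nonneg (by positivity)
    split_ifs <;> positivity
  have hgs : ∀ z, Summable fun j => g j z := by
    intro z
    have h1 : Summable fun j : ℕ => (1 / 4 : ℝ) ^ j * (analyticOrderNatAt F z : ℝ) :=
      (summable_geometric_of_lt_one (by norm_num) (by norm_num)).mul_right _
    refine Summable.of_nonneg_of_le (fun j => hg0 j z) (fun j => ?_) h1
    rw [hgdef]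
    apply mul_le_mul_of_nonneg_left _ (by positivity)
    split_ifs <;> simp
  have hpt : ∀ z, (analyticOrderNatAt F z : ℝ) / (1 + ‖z‖) ^ 2 ≤ 4 * ∑' j, g j z := by
    intro z
    have hex : ∃ j : ℕ, 1 + ‖z‖ ≤ (2 : ℝ) ^ j := by
      obtain ⟨j, hj⟩ := pow_unbounded_of_one_lt (1 + ‖z‖) (by norm_num : (1 : ℝ) < 2)
      exact ⟨j, hj.le⟩
    set j0 := Nat.find hex with hj0
    have h1 : 1 + ‖z‖ ≤ (2 : ℝ) ^ j0 := Nat.find_spec hex
    have h2 : (4 : ℝ) ^ j0 ≤ 4 * (1 + ‖z‖) ^ 2 := by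
      rcases Nat.eq_zero_or_pos j0 with h | h
      · rw [h, pow_zero]
        have : 0 ≤ ‖z‖ := norm_nonneg z
        nlinarith
      · have h3 : ¬ (1 + ‖z‖ ≤ (2 : ℝ) ^ (j0 - 1)) := Nat.find_min hex (by omega)
        push Not at h3
        have h4 : ((2 : ℝ) ^ (j0 - 1)) ^ 2 ≤ (1 + ‖z‖) ^ 2 := pow_le_pow_left₀ (by positivity) h3.le 2
        have h5 : (4 : ℝ) ^ j0 = 4 * ((2 : ℝ) ^ (j0 - 1)) ^ 2 := by
          rw [← pow_mul, mul_comm (j0 - 1) 2, pow_mul]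
          norm_num
          rw [← pow_succ']
          congr 1
          omega
        rw [h5]
        linarith
    have h3 : g j0 z ≤ ∑' j, g j z := (hgs z).le_tsum j0 (fun j _ => hg0 j z)
    have h4 : g j0 z = (1 / 4 : ℝ) ^ j0 * (analyticOrderNatAt F z : ℝ) := by
      rw [hgdef]
      simp only
      rw [if_pos h1]
    rw [h4] at h3
    have h5 : (analyticOrderNatAt F z : ℝ) / (1 + ‖z‖) ^ 2 ≤ 4 * ((1 / 4 : ℝ) ^ j0 * (analyticOrderNatAt F z : ℝ)) := by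
      rw [div_le_iff₀ (by positivity), one_div, inv_pow]
      have h6 : (0 : ℝ) < 4 ^ j0 := by positivity
      have h7 : 1 ≤ ((4 : ℝ) ^ j0)⁻¹ * (4 * (1 + ‖z‖) ^ 2) := by
        rw [inv_mul_eq_div, le_div_iff₀ h6, one_mul]
        exact h2
      have h8 : (0 : ℝ) ≤ analyticOrderNatAt F z := Nat.cast_nonneg _
      nlinarith
    linarith
  refine summable_of_sum_le (c := 4 * (A * (1 - q)⁻¹)) (fun z => by positivity) (fun u => ?_)
  calc ∑ z ∈ u, (analyticOrderNatAt F z : ℝ) / (1 + ‖z‖) ^ 2 ≤ ∑ z ∈ u, 4 * ∑' j, g j z :=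
        Finset.sum_le_sum fun z _ => hpt z
    _ = 4 * ∑' j, ∑ z ∈ u, g j z := by
        rw [← Finset.mul_sum, Summable.tsum_finsetSum (fun z _ => hgs z)]
    _ ≤ 4 * ∑' j : ℕ, A * q ^ j := by
        apply mul_le_mul_of_nonneg_left _ (by norm_num)
        have hs2 : Summable fun j : ℕ => A * q ^ j := (summable_geometric_of_lt_one hq0 hq1).mul_left A
        have hle : ∀ j, ∑ z ∈ u, g j z ≤ A * q ^ j := by
          intro j
          have h1 := (hA ((2 : ℝ) ^ j) (one_le_pow₀ (by norm_num))).2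
            (u.filter fun z => 1 + ‖z‖ ≤ (2 : ℝ) ^ j) (fun a ha => by
              have := (Finset.mem_filter.1 ha).2
              linarith)
          have h2 : ∑ z ∈ u, g j z = (1 / 4 : ℝ) ^ j *
              ((∑ z ∈ u.filter (fun z => 1 + ‖z‖ ≤ (2 : ℝ) ^ j), analyticOrderNatAt F z : ℕ) : ℝ) := by
            rw [hgdef]
            simp only
            rw [← Finset.mul_sum, Finset.sum_filter]
            push_cast
            rfl
          rw [h2]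
          calc (1 / 4 : ℝ) ^ j * _ ≤ (1 / 4 : ℝ) ^ j * (A * ((2 : ℝ) ^ j) ^ κ) :=
                mul_le_mul_of_nonneg_left h1 (by positivity)
            _ = A * q ^ j := by
                have e : ((2 : ℝ) ^ j) ^ κ = ((2 : ℝ) ^ κ) ^ j := by
                  rw [← Real.rpow_natCast, ← Real.rpow_natCast, ← Real.rpow_mul (by norm_num),
                    ← Real.rpow_mul (by norm_num), mul_comm]
                rw [e, hq, div_pow, div_pow, one_pow]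
                ring
        exact Summable.tsum_le_tsum hle (Summable.of_nonneg_of_le (fun j =>
          Finset.sum_nonneg fun z _ => hg0 j z) hle hs2) hs2
    _ = 4 * (A * (1 - q)⁻¹) := by
        rw [tsum_mul_left, tsum_geometric_of_lt_one hq0 hq1]

end Pool.Agent.Helper39.PF
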