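import Mathlib

set_option autoImplicit false
set_option maxHeartbeats 1000000

open Complex Filter Topology Set Metric

namespace Pool.Agent.Helper39.PF

lemma an {F : ℂ → ℂ} (hF : Differentiable ℂ F) (z : ℂ) : AnalyticAt ℂ F z := hF.analyticAt z

lemma ord_ne_top {F : ℂ → ℂ} (hF : Differentiable ℂ F) (h0 : ∃ z, F z ≠ 0) (z : ℂ) :
    analyticOrderAt F z ≠ ⊤ := by
  intro h
  have hA : AnalyticOnNhd ℂ F univ := fun x _ => hF.analyticAt x
  have h1 : F =ᶠ[𝓝 z] 0 := analyticOrderAt_eq_top.1 h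
  have h2 := hA.eqOn_zero_of_preconnected_of_eventuallyEq_zero isPreconnected_univ (mem_univ z) h1
  obtain ⟨w, hw⟩ := h0
  exact hw (h2 (mem_univ w))

/-- splitting off a zero of order at least `n` -/
lemma split_pow {F : ℂ → ℂ} (hF : Differentiable ℂ F) (h0 : ∃ z, F z ≠ 0) (a : ℂ) :
    ∀ n : ℕ, n ≤ analyticOrderNatAt F a → ∃ g : ℂ → ℂ, Differentiable ℂ g ∧ ∀ z, F z = (z - a) ^ n * g z := by
  intro n
  induction n with
  | zero => exact fun _ => ⟨F, hF, fun z => by simp⟩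
  | succ n ih =>
    intro hn
    obtain ⟨g, hg, hgF⟩ := ih (by omega)
    have hga : g a = 0 := by
      by_contra hne
      have h1 : analyticOrderNatAt F a = n := by
        rw [(an hF a).analyticOrderNatAt_eq_iff (ord_ne_top hF h0 a)]
        exact ⟨g, an hg a, hne, Eventually.of_forall fun z => by rw [hgF z, smul_eq_mul]⟩
      omega
    refine ⟨dslope g a, ?_, fun z => ?_⟩
    · have := (differentiableOn_dslope (f := g) (s := univ) (c := a) univ_mem).2 hg.differentiableOn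
      exact differentiableOn_univ.1 this
    · have h2 : (z - a) • dslope g a z = g z - g a := sub_smul_dslope g a z
      rw [hga, sub_zero, smul_eq_mul] at h2
      rw [hgF z, ← h2, pow_succ]
      ring

/-- the order of the quotient -/
lemma ord_mul {F P H : ℂ → ℂ} (hP : Differentiable ℂ P) (hH : Differentiable ℂ H) (h : ∀ z, F z = P z * H z)
    (h0 : ∃ z, F z ≠ 0) (z : ℂ) :
    analyticOrderNatAt F z = analyticOrderNatAt P z + analyticOrderNatAt H z := by
  have e : F = P * H := funext h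
  have hF : Differentiable ℂ F := by rw [e]; exact hP.mul hH
  have hP0 : ∃ z, P z ≠ 0 := by
    obtain ⟨w, hw⟩ := h0
    exact ⟨w, fun h1 => hw (by rw [h, h1, zero_mul])⟩
  have hH0 : ∃ z, H z ≠ 0 := by
    obtain ⟨w, hw⟩ := h0
    exact ⟨w, fun h1 => hw (by rw [h, h1, mul_zero])⟩
  rw [e]
  exact analyticOrderNatAt_mul (an hP z) (an hH z) (ord_ne_top hP hP0 z) (ord_ne_top hH hH0 z)

lemma ord_pow_sub (a : ℂ) (n : ℕ) : analyticOrderNatAt (fun z => (z - a) ^ n) a = n := by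
  have hd : Differentiable ℂ (fun z : ℂ => (z - a) ^ n) := by fun_prop
  have h0 : ∃ z : ℂ, (fun z => (z - a) ^ n) z ≠ 0 := ⟨a + 1, by simp⟩
  rw [(an hd a).analyticOrderNatAt_eq_iff (ord_ne_top hd h0 a)]
  exact ⟨fun _ => 1, analyticAt_const, one_ne_zero, Eventually.of_forall fun z => by simp⟩

lemma ord_eq_zero {F : ℂ → ℂ} {z : ℂ} (h : F z ≠ 0) : analyticOrderNatAt F z = 0 := by
  by_contra h1
  exact h (apply_eq_zero_of_analyticOrderNatAt_ne_zero h1)

lemma ne_of_ord {F : ℂ → ℂ} (hF : Differentiable ℂ F) (h0 : ∃ z, F z ≠ 0) {z : ℂ}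
    (h : analyticOrderNatAt F z = 0) : F z ≠ 0 := by
  intro hz
  have h1 := ((an hF z).analyticOrderAt_ne_zero).2 hz
  have h2 := Nat.cast_analyticOrderNatAt (ord_ne_top hF h0 z)
  rw [h] at h2
  exact h1 (by rw [← h2]; simp)

lemma ord_pos {F : ℂ → ℂ} (hF : Differentiable ℂ F) (h0 : ∃ z, F z ≠ 0) {z : ℂ} (h : F z = 0) :
    1 ≤ analyticOrderNatAt F z := by
  by_contra h1
  exact ne_of_ord hF h0 (by omega) h

/-- the polynomial with the zeros of `F` in `S` -/
noncomputable def PP (F : ℂ → ℂ) (S : Finset ℂ) (z : ℂ) : ℂ :=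
  ∏ a ∈ S, (z - a) ^ analyticOrderNatAt F a

lemma PP_diff (F : ℂ → ℂ) (S : Finset ℂ) : Differentiable ℂ (PP F S) := by
  unfold PP
  fun_prop

/-- `F = PP F S * H` with `H` entire, and `H` has no zeros in `S` nor where `F` has none -/
theorem factor {F : ℂ → ℂ} (hF : Differentiable ℂ F) (h0 : ∃ z, F z ≠ 0) (S : Finset ℂ) :
    ∃ H : ℂ → ℂ, Differentiable ℂ H ∧ (∀ z, F z = PP F S z * H z) ∧ (∃ z, H z ≠ 0) ∧
      ∀ z, (z ∈ S → analyticOrderNatAt H z = 0) ∧ (z ∉ S → analyticOrderNatAt H z = analyticOrderNatAt F z) := by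
  classical
  induction S using Finset.induction_on with
  | empty => exact ⟨F, hF, fun z => by simp [PP], h0, fun z => ⟨fun h => absurd h (by simp), fun _ => rfl⟩⟩
  | insert a S ha ih =>
    obtain ⟨H, hH, hHF, hH0, hHo⟩ := ih
    obtain ⟨g, hg, hgH⟩ := split_pow hH hH0 a (analyticOrderNatAt H a) le_rfl
    have hg0 : ∃ z, g z ≠ 0 := by
      obtain ⟨w, hw⟩ := hH0
      exact ⟨w, fun h1 => hw (by rw [hgH, h1, mul_zero])⟩
    have hd : Differentiable ℂ (fun z : ℂ => (z - a) ^ analyticOrderNatAt H a) := by fun_prop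
    have ho := ord_mul (P := fun z => (z - a) ^ analyticOrderNatAt H a) hd hg hgH hH0
    refine ⟨g, hg, fun z => ?_, hg0, fun z => ⟨fun hz => ?_, fun hz => ?_⟩⟩
    · rw [hHF z, hgH z, PP, PP, Finset.prod_insert ha, (hHo a).2 ha]
      ring
    · rcases Finset.mem_insert.1 hz with rfl | hz
      · have := ho z
        rw [ord_pow_sub] at this
        omega
      · have h1 := ho z
        rw [(hHo z).1 hz] at h1
        omega
    · rw [Finset.mem_insert, not_or] at hz
      have h1 := ho z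
      rw [(hHo z).2 hz.2, ord_eq_zero (F := fun z => (z - a) ^ analyticOrderNatAt H a)
        (pow_ne_zero _ (sub_ne_zero.2 hz.1)), zero_add] at h1
      exact h1.symm

lemma H_ne {F H : ℂ → ℂ} {S : Finset ℂ} (hF : Differentiable ℂ F) (h0 : ∃ z, F z ≠ 0)
    (hH : Differentiable ℂ H) (hH0 : ∃ z, H z ≠ 0)
    (hHo : ∀ z, (z ∈ S → analyticOrderNatAt H z = 0) ∧ (z ∉ S → analyticOrderNatAt H z = analyticOrderNatAt F z))
    {z : ℂ} (hz : z ∈ S ∨ F z ≠ 0) : H z ≠ 0 := by
  apply ne_of_ord hH hH0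
  by_cases hS : z ∈ S
  · exact (hHo z).1 hS
  · rw [(hHo z).2 hS]
    exact ord_eq_zero (hz.resolve_left hS)

end Pool.Agent.Helper39.PF
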