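import Pool.Agent.Helper39.PF.Cnt

set_option autoImplicit false
set_option maxHeartbeats 1000000

open Complex Filter Topology Set Metric

namespace Pool.Agent.Helper39.PF

/-- a holomorphic logarithm on a disc -/
lemma branch0 {h : ℂ → ℂ} {R : ℝ} (hR : 0 < R) (hd : Differentiable ℂ h) (hne : ∀ z ∈ ball (0 : ℂ) R, h z ≠ 0) :
    ∃ f : ℂ → ℂ, DifferentiableOn ℂ f (ball 0 R) ∧ f 0 = 0 ∧
      (∀ z ∈ ball (0 : ℂ) R, h z = h 0 * exp (f z)) ∧ ∀ z ∈ ball (0 : ℂ) R, HasDerivAt f (logDeriv h z) z := by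
  have hld : DifferentiableOn ℂ (logDeriv h) (ball 0 R) := by
    intro z hz
    apply DifferentiableAt.differentiableWithinAt
    have h1 : AnalyticAt ℂ h z := hd.analyticAt z
    have e : logDeriv h = fun z => deriv h z / h z := by
      funext z; rw [logDeriv_apply]
    rw [e]
    exact h1.deriv.differentiableAt.div h1.differentiableAt (hne z hz)
  obtain ⟨F, hF⟩ := hld.isExactOn_ball
  refine ⟨fun z => F z - F 0, ?_, by simp, ?_, fun z hz => (hF z hz).sub_const _⟩
  · intro z hz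
    exact ((hF z hz).differentiableAt.sub_const _).differentiableWithinAt
  · set H : ℂ → ℂ := fun z => h z * exp (-(F z - F 0)) with hH
    have hHd : ∀ z ∈ ball (0 : ℂ) R, HasDerivAt H 0 z := by
      intro z hz
      have h1 : HasDerivAt h (deriv h z) z := (hd z).hasDerivAt
      have h2 : HasDerivAt (fun z => exp (-(F z - F 0))) (exp (-(F z - F 0)) * (-(logDeriv h z))) z :=
        ((hF z hz).sub_const _).neg.cexp
      have h3 := h1.mul h2
      have e : deriv h z * exp (-(F z - F 0)) + h z * (exp (-(F z - F 0)) * (-(logDeriv h z))) = 0 := by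
        rw [logDeriv_apply]
        have := hne z hz
        field_simp
        ring
      rw [e] at h3
      exact h3
    intro z hz
    have hconst : H z = H 0 := by
      have hconv : Convex ℝ (ball (0 : ℂ) R) := convex_ball _ _
      exact (isOpen_ball.is_const_of_deriv_eq_zero hconv.isPreconnected
        (fun z hz => (hHd z hz).differentiableAt.differentiableWithinAt)
        (fun z hz => (hHd z hz).deriv) hz (mem_ball_self hR))
    rw [hH] at hconst
    simp only [sub_self, neg_zero, Complex.exp_zero, mul_one] at hconst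
    rw [← hconst, mul_assoc, ← Complex.exp_add]
    simp

/-- logarithmic derivative of a zero-free function of moderate growth -/
lemma ld_lip {h : ℂ → ℂ} {R M : ℝ} (hR : 0 < R) (hM : 0 < M) (hd : Differentiable ℂ h)
    (hne : ∀ z ∈ ball (0 : ℂ) R, h z ≠ 0) (hb : ∀ z ∈ ball (0 : ℂ) R, ‖h z‖ ≤ Real.exp M * ‖h 0‖)
    {w : ℂ} (hw : ‖w‖ ≤ R / 4) : ‖logDeriv h w - logDeriv h (-w)‖ ≤ 128 * M * ‖w‖ / R ^ 2 := by
  obtain ⟨f, hfd, hf0, hfe, hfder⟩ := branch0 hR hd hne
  have h00 : 0 < ‖h 0‖ := norm_pos_iff.2 (hne 0 (mem_ball_self hR))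
  have hmaps : MapsTo f (ball 0 R) {z | z.re ≤ M} := by
    intro z hz
    show (f z).re ≤ M
    have h1 := hb z hz
    rw [hfe z hz, norm_mul, Complex.norm_exp, mul_comm] at h1
    have h2 := le_of_mul_le_mul_right h1 h00
    exact Real.exp_le_exp.1 h2
  have hhalf : ∀ z : ℂ, ‖z‖ ≤ R / 2 → ‖f z‖ ≤ 2 * M := by
    intro z hz
    have h1 := Complex.borelCaratheodory_zero hM hfd hmaps hR (z := z)
      (by rw [mem_ball_zero_iff]; linarith) hf0
    refine h1.trans ?_
    rw [div_le_iff₀ (by linarith)]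
    apply mul_le_mul_of_nonneg_left _ (by positivity)
    linarith
  have hR4 : 0 < R / 4 := by positivity
  have hball : ∀ z : ℂ, ‖z‖ ≤ R / 4 → z ∈ ball (0 : ℂ) R := fun z hz => by
    rw [mem_ball_zero_iff]; linarith
  have hsub : ∀ z : ℂ, ‖z‖ ≤ R / 4 → ∀ v ∈ closedBall z (R / 4), ‖v‖ ≤ R / 2 := by
    intro z hz v hv
    rw [mem_closedBall, dist_eq_norm] at hv
    calc ‖v‖ = ‖(v - z) + z‖ := by rw [sub_add_cancel]
      _ ≤ ‖v - z‖ + ‖z‖ := norm_add_le _ _
      _ ≤ R / 2 := by linarith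
  have hdd : ∀ z : ℂ, ‖z‖ ≤ R / 4 → ‖deriv (logDeriv h) z‖ ≤ 64 * M / R ^ 2 := by
    intro z hz
    have hdc : DiffContOnCl ℂ f (ball z (R / 4)) := by
      refine DifferentiableOn.diffContOnCl (hfd.mono ?_)
      rw [closure_ball _ hR4.ne']
      intro v hv
      rw [mem_ball_zero_iff]
      have := hsub z hz v hv
      linarith
    have h2 := norm_iteratedDeriv_le_of_forall_mem_sphere_norm_le 2 hR4 hdc
      (fun v hv => hhalf v (hsub z hz v (sphere_subset_closedBall hv)))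
    have hd2 : iteratedDeriv 2 f z = deriv (logDeriv h) z := by
      rw [iteratedDeriv_succ, iteratedDeriv_one]
      have hev : deriv f =ᶠ[𝓝 z] logDeriv h := by
        filter_upwards [isOpen_ball.mem_nhds (hball z hz)] with v hv
        exact (hfder v hv).deriv
      exact hev.deriv_eq
    rw [hd2] at h2
    refine h2.trans (le_of_eq ?_)
    have : (Nat.factorial 2 : ℝ) = 2 := by norm_num [Nat.factorial]
    rw [this]
    field_simp
    norm_num
  have hconv : Convex ℝ (closedBall (0 : ℂ) (R / 4)) := convex_closedBall _ _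
  have h3 := hconv.norm_image_sub_le_of_norm_deriv_le (f := logDeriv h) (C := 64 * M / R ^ 2)
    (x := -w) (y := w) (fun z hz => ?_) (fun z hz => hdd z (mem_closedBall_zero_iff.1 hz))
    (by rw [mem_closedBall_zero_iff, norm_neg]; exact hw) (mem_closedBall_zero_iff.2 hw)
  · refine h3.trans (le_of_eq ?_)
    have e : ‖w - -w‖ = 2 * ‖w‖ := by
      rw [sub_neg_eq_add, ← two_mul, norm_mul]
      norm_num
    rw [e]
    ring
  · have hz' := hball z (mem_closedBall_zero_iff.1 hz)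
    have h1 : AnalyticAt ℂ h z := hd.analyticAt z
    have e : logDeriv h = fun z => deriv h z / h z := by
      funext z; rw [logDeriv_apply]
    rw [e]
    exact h1.deriv.differentiableAt.div h1.differentiableAt (hne z hz')

lemma ld_PP {F : ℂ → ℂ} {S : Finset ℂ} {w : ℂ} (hw : ∀ a ∈ S, w ≠ a) :
    logDeriv (PP F S) w = ∑ a ∈ S, (analyticOrderNatAt F a : ℂ) * (1 / (w - a)) := by
  have e : PP F S = fun z => ∏ a ∈ S, (fun a z => (z - a) ^ analyticOrderNatAt F a) a z := rfl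
  rw [e, logDeriv_prod]
  · apply Finset.sum_congr rfl
    intro a _
    have h1 : logDeriv (fun z : ℂ => (z - a) ^ analyticOrderNatAt F a) w =
        analyticOrderNatAt F a * logDeriv (fun z : ℂ => z - a) w := logDeriv_fun_pow (by fun_prop) _
    rw [h1]
    congr 1
    rw [logDeriv_apply]
    simp
  · intro a ha
    exact pow_ne_zero _ (sub_ne_zero.2 (hw a ha))
  · intro a _
    fun_prop

lemma PP_ne {F : ℂ → ℂ} {S : Finset ℂ} {w : ℂ} (hw : ∀ a ∈ S, w ≠ a) : PP F S w ≠ 0 := by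
  rw [PP, Finset.prod_ne_zero_iff]
  exact fun a ha => pow_ne_zero _ (sub_ne_zero.2 (hw a ha))

/-- the partial fractions over the zeros in a disc -/
lemma partial_bound {F : ℂ → ℂ} {C κ : ℝ} (hF : Differentiable ℂ F)
    (hg : Grow F C κ) (h0 : F 0 ≠ 0) (hs : ∀ z, F (-z) = F z) {R A : ℝ} (hR : 0 < R)
    (hA : C * (1 + 4 * R) ^ κ + |Real.log ‖F 0‖| + 1 ≤ A) (hA0 : 0 < A)
    {S : Finset ℂ} (hS : ∀ a, a ∈ S ↔ F a = 0 ∧ ‖a‖ ≤ R) {w : ℂ} (hw : ‖w‖ ≤ R / 4) (hw0 : F w ≠ 0) :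
    ‖deriv F w / F w - ∑ a ∈ S, (analyticOrderNatAt F a : ℂ) * (w / (w ^ 2 - a ^ 2))‖ ≤ 64 * A * ‖w‖ / R ^ 2 := by
  obtain ⟨H, hH, hf, hH0, hHo⟩ := factor hF ⟨0, h0⟩ S
  have hSR : ∀ a ∈ S, ‖a‖ ≤ R := fun a ha => ((hS a).1 ha).2
  have hFneg : F (-w) ≠ 0 := by rw [hs]; exact hw0
  have hwS : ∀ a ∈ S, w ≠ a := by
    rintro a ha rfl
    exact hw0 ((hS w).1 ha).1
  have hwS' : ∀ a ∈ S, -w ≠ a := by
    rintro a ha h
    exact hFneg (by rw [h]; exact ((hS a).1 ha).1)
  have hHne : ∀ z ∈ ball (0 : ℂ) R, H z ≠ 0 := by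
    intro z hz
    rw [mem_ball_zero_iff] at hz
    apply H_ne hF ⟨0, h0⟩ hH hH0 hHo
    by_cases h : F z = 0
    · exact Or.inl ((hS z).2 ⟨h, hz.le⟩)
    · exact Or.inr h
  have hF0 : 0 < ‖F 0‖ := norm_pos_iff.2 h0
  have hHb : ∀ z ∈ ball (0 : ℂ) R, ‖H z‖ ≤ Real.exp A * ‖H 0‖ := by
    intro z hz
    rw [mem_ball_zero_iff] at hz
    have h1 := H_ratio hg hH hf hR hSR (z := z) (by linarith)
    have h2 : Real.exp (C * (1 + 4 * R) ^ κ) ≤ Real.exp A * ‖F 0‖ := by
      have h3 : ‖F 0‖ = Real.exp (Real.log ‖F 0‖) := (Real.exp_log hF0).symm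
      rw [h3, ← Real.exp_add]
      apply Real.exp_le_exp.2
      have := neg_abs_le (Real.log ‖F 0‖)
      linarith
    have h3 : ‖F 0‖ * ‖H z‖ ≤ ‖F 0‖ * (Real.exp A * ‖H 0‖) := by
      calc _ ≤ _ := h1
        _ ≤ (Real.exp A * ‖F 0‖) * ‖H 0‖ := mul_le_mul_of_nonneg_right h2 (norm_nonneg _)
        _ = _ := by ring
    exact le_of_mul_le_mul_left h3 hF0
  have hlip := ld_lip hR hA0 hH hHne hHb hw
  have hld : ∀ v : ℂ, (∀ a ∈ S, v ≠ a) → H v ≠ 0 → deriv F v / F v =
      ∑ a ∈ S, (analyticOrderNatAt F a : ℂ) * (1 / (v - a)) + logDeriv H v := by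
    intro v hv hHv
    have e : F = fun z => PP F S z * H z := funext hf
    have h1 : logDeriv F v = logDeriv (fun z => PP F S z * H z) v := congrArg (fun G => logDeriv G v) e
    rw [← logDeriv_apply, h1, logDeriv_mul v (PP_ne hv) hHv (PP_diff F S v) (hH v), ld_PP hv]
  have e1 := hld w hwS (hHne w (by rw [mem_ball_zero_iff]; linarith))
  have e2 := hld (-w) hwS' (hHne (-w) (by rw [mem_ball_zero_iff, norm_neg]; linarith))
  have hodd : deriv F (-w) / F (-w) = -(deriv F w / F w) := by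
    have h1 : deriv F w = -deriv F (-w) := by
      have h2 : F = fun z => F (-z) := funext fun z => (hs z).symm
      have h3 : deriv F w = deriv (fun z => F (-z)) w := congrArg (fun G => deriv G w) h2
      rw [h3, deriv_comp_neg]
    rw [hs, h1]
    ring
  rw [hodd] at e2
  have hsum : ∑ a ∈ S, (analyticOrderNatAt F a : ℂ) * (1 / (w - a)) -
      ∑ a ∈ S, (analyticOrderNatAt F a : ℂ) * (1 / (-w - a)) =
      2 * ∑ a ∈ S, (analyticOrderNatAt F a : ℂ) * (w / (w ^ 2 - a ^ 2)) := by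
    rw [← Finset.sum_sub_distrib, Finset.mul_sum]
    apply Finset.sum_congr rfl
    intro a ha
    have h1 : w - a ≠ 0 := sub_ne_zero.2 (hwS a ha)
    have h2 : -w - a ≠ 0 := sub_ne_zero.2 (hwS' a ha)
    have h3 : w ^ 2 - a ^ 2 ≠ 0 := by
      have : w ^ 2 - a ^ 2 = -((w - a) * (-w - a)) := by ring
      rw [this]
      exact neg_ne_zero.2 (mul_ne_zero h1 h2)
    field_simp
    ring
  have key : 2 * (deriv F w / F w - ∑ a ∈ S, (analyticOrderNatAt F a : ℂ) * (w / (w ^ 2 - a ^ 2))) =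
      logDeriv H w - logDeriv H (-w) := by
    linear_combination e1 - e2 + hsum
  have hn : 2 * ‖deriv F w / F w - ∑ a ∈ S, (analyticOrderNatAt F a : ℂ) * (w / (w ^ 2 - a ^ 2))‖ ≤
      128 * A * ‖w‖ / R ^ 2 := by
    rw [← key, norm_mul] at hlip
    simpa using hlip
  have : 128 * A * ‖w‖ / R ^ 2 = 2 * (64 * A * ‖w‖ / R ^ 2) := by ring
  linarith

end Pool.Agent.Helper39.PF
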