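import Pool.Agent.Helper39.PF.Lim

set_option autoImplicit false
set_option maxHeartbeats 1000000

open Complex Filter Topology Set Metric

namespace Pool.Agent.Helper39.PF

lemma pf_summable {F : ℂ → ℂ} {C κ : ℝ} (hC : 0 ≤ C) (hκ : 0 ≤ κ) (hκ2 : κ < 2) (hF : Differentiable ℂ F)
    (hg : Grow F C κ) (h0 : F 0 ≠ 0) (w : ℂ) :
    Summable fun z : ℂ => (analyticOrderNatAt F z : ℂ) * (w / (w ^ 2 - z ^ 2)) := by
  have hs := (summ hC hκ hκ2 hF hg h0).mul_left (16 / 3 * ‖w‖)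
  refine Summable.of_norm_bounded_eventually hs ?_
  have hfin := finite_zeros hC hκ hF hg h0 (2 * ‖w‖ + 1)
  rw [Filter.eventually_cofinite]
  refine hfin.subset fun z hz => ?_
  by_contra hcon
  apply hz
  by_cases hz0 : F z = 0
  · have hbig : 2 * ‖w‖ + 1 < ‖z‖ := by
      by_contra h
      exact hcon ⟨hz0, by linarith⟩
    have hw0 := norm_nonneg w
    have h1 : 3 / 4 * ‖z‖ ^ 2 ≤ ‖w ^ 2 - z ^ 2‖ := by
      have h2 : ‖z ^ 2‖ - ‖w ^ 2‖ ≤ ‖z ^ 2 - w ^ 2‖ := norm_sub_norm_le _ _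
      rw [norm_sub_rev, norm_pow, norm_pow] at h2
      nlinarith
    have h2 : (1 + ‖z‖) ^ 2 ≤ 4 * ‖z‖ ^ 2 := by nlinarith
    rw [norm_mul, norm_div, Complex.norm_natCast]
    have h3 : ‖w‖ / ‖w ^ 2 - z ^ 2‖ ≤ 16 / 3 * ‖w‖ / (1 + ‖z‖) ^ 2 := by
      rw [div_le_div_iff₀ (by nlinarith) (by positivity)]
      nlinarith
    calc (analyticOrderNatAt F z : ℝ) * (‖w‖ / ‖w ^ 2 - z ^ 2‖) ≤
        (analyticOrderNatAt F z : ℝ) * (16 / 3 * ‖w‖ / (1 + ‖z‖) ^ 2) :=
          mul_le_mul_of_nonneg_left h3 (Nat.cast_nonneg _)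
      _ = _ := by ring
  · rw [ord_eq_zero hz0]
    simp

/-- partial fractions for an even function with `F 0 ≠ 0` -/
lemma pfF {F : ℂ → ℂ} {C κ : ℝ} (hC : 0 ≤ C) (hκ : 0 ≤ κ) (hκ2 : κ < 2) (hF : Differentiable ℂ F)
    (hg : Grow F C κ) (h0 : F 0 ≠ 0) (hs : ∀ z, F (-z) = F z) {w : ℂ} (hw : F w ≠ 0) :
    HasSum (fun z : ℂ => (analyticOrderNatAt F z : ℂ) * (w / (w ^ 2 - z ^ 2))) (deriv F w / F w) := by
  classical
  obtain ⟨A, hA1, hA⟩ := count hC hκ hF hg h0
  set a : ℂ → ℂ := fun z => (analyticOrderNatAt F z : ℂ) * (w / (w ^ 2 - z ^ 2)) with ha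
  have hsum : Summable a := pf_summable hC hκ hκ2 hF hg h0 w
  set Z : Set ℂ := {z | F z = 0} with hZ
  have hsupp : Function.support a ⊆ Z := by
    intro z hz
    by_contra h
    apply hz
    rw [ha]
    simp only
    rw [ord_eq_zero h]
    simp
  rw [← hasSum_subtype_iff_of_support_subset hsupp]
  have hsumZ : Summable (a ∘ ((↑) : Z → ℂ)) := hsum.subtype Z
  have hfin := fun n : ℕ => finite_zeros hC hκ hF hg h0 (n : ℝ)
  set S : ℕ → Finset ℂ := fun n => (hfin n).toFinset with hS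
  have hSm : ∀ n z, z ∈ S n ↔ F z = 0 ∧ ‖z‖ ≤ n := by
    intro n z
    rw [hS]
    simp
  set S' : ℕ → Finset Z := fun n => (S n).subtype (fun z => z ∈ Z) with hS'
  have hmono : Monotone S' := by
    intro n m hnm z hz
    rw [hS'] at hz ⊢
    simp only [Finset.mem_subtype] at hz ⊢
    rw [hSm] at hz ⊢
    exact ⟨hz.1, hz.2.trans (by exact_mod_cast hnm)⟩
  have hex : ∀ z : Z, ∃ n, z ∈ S' n := by
    intro z
    obtain ⟨n, hn⟩ := exists_nat_ge ‖(z : ℂ)‖
    refine ⟨n, ?_⟩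
    rw [hS']
    simp only [Finset.mem_subtype]
    rw [hSm]
    exact ⟨z.2, hn⟩
  have htend := tendsto_atTop_finset_of_monotone hmono hex
  have hlim1 : Tendsto (fun n => ∑ z ∈ S' n, (a ∘ ((↑) : Z → ℂ)) z) atTop (𝓝 (∑' z : Z, (a ∘ ((↑) : Z → ℂ)) z)) :=
    hsumZ.hasSum.comp htend
  have hpart : ∀ n, ∑ z ∈ S' n, (a ∘ ((↑) : Z → ℂ)) z = ∑ z ∈ S n, a z := by
    intro n
    rw [hS']
    simp only [Function.comp]
    rw [Finset.sum_subtype_eq_sum_filter (s := S n) (f := a) (p := fun z => z ∈ Z)]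
    rw [Finset.filter_true_of_mem]
    intro z hz
    exact ((hSm n z).1 hz).1
  have hlim2 : Tendsto (fun n => ∑ z ∈ S' n, (a ∘ ((↑) : Z → ℂ)) z) atTop (𝓝 (deriv F w / F w)) := by
    rw [tendsto_iff_norm_sub_tendsto_zero]
    have hexp : Tendsto (fun n : ℕ => 64 * A * ‖w‖ * ((n : ℝ) ^ (-(2 - κ)))) atTop (𝓝 0) := by
      have h1 := (tendsto_rpow_neg_atTop (show 0 < 2 - κ by linarith)).comp tendsto_natCast_atTop_atTop
      have h2 := h1.const_mul (64 * A * ‖w‖)
      rw [mul_zero] at h2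
      exact h2
    refine squeeze_zero' (Eventually.of_forall fun n => norm_nonneg _) ?_ hexp
    obtain ⟨n0, hn0⟩ := exists_nat_ge (4 * ‖w‖ + 1)
    filter_upwards [eventually_ge_atTop n0] with n hn
    have hn1 : 4 * ‖w‖ + 1 ≤ (n : ℝ) := hn0.trans (by exact_mod_cast hn)
    have hw0 := norm_nonneg w
    have hn2 : (1 : ℝ) ≤ n := by linarith
    have hn3 : (0 : ℝ) < n := by linarith
    rw [hpart, norm_sub_rev]
    have h1 := partial_bound hF hg h0 hs hn3 (hA n hn2).1 (by positivity) (hSm n) (w := w) (by linarith) hw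
    refine h1.trans (le_of_eq ?_)
    have e : (n : ℝ) ^ (-(2 - κ)) = (n : ℝ) ^ κ / (n : ℝ) ^ 2 := by
      rw [neg_sub, Real.rpow_sub hn3]
      norm_num
    rw [e]
    ring
  have := tendsto_nhds_unique hlim1 hlim2
  rw [← this]
  exact hsumZ.hasSum

/-- **Symmetric partial fractions** for entire functions of order less than two. -/
theorem pf_gen {G : ℂ → ℂ} {κ : ℝ} (hκ : 0 ≤ κ) (hκ2 : κ < 2) (hd : Differentiable ℂ G) (h0 : ∃ z, G z ≠ 0)
    (hg : ∃ C : ℝ, 0 ≤ C ∧ ∀ z : ℂ, ‖G z‖ ≤ Real.exp (C * (1 + ‖z‖) ^ κ))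
    {ε : ℂ} (hε : ε = 1 ∨ ε = -1) (hs : ∀ z, G (-z) = ε * G z) :
    Summable (fun ρ : {z : ℂ // G z = 0} => (analyticOrderNatAt G (ρ : ℂ) : ℝ) / (1 + ‖(ρ : ℂ)‖) ^ 2) ∧
    ∀ w : ℂ, G w ≠ 0 → HasSum (fun ρ : {z : ℂ // G z = 0} =>
      (analyticOrderNatAt G (ρ : ℂ) : ℂ) * (w / (w ^ 2 - (ρ : ℂ) ^ 2))) (deriv G w / G w) := by
  classical
  obtain ⟨C, hC, hgr⟩ := hg
  set k := analyticOrderNatAt G 0 with hk
  obtain ⟨F, hF, hGF⟩ := split_pow hd h0 0 k le_rfl
  simp only [sub_zero] at hGF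
  have hF0' : ∃ z, F z ≠ 0 := by
    obtain ⟨v, hv⟩ := h0
    exact ⟨v, fun h => hv (by rw [hGF, h, mul_zero])⟩
  have hpd : Differentiable ℂ (fun z : ℂ => z ^ k) := by fun_prop
  have hord := ord_mul (P := fun z => z ^ k) hpd hF hGF h0
  have hordk : analyticOrderNatAt (fun z : ℂ => z ^ k) 0 = k := by
    have := ord_pow_sub 0 k
    simpa using this
  have hFord0 : analyticOrderNatAt F 0 = 0 := by
    have := hord 0
    rw [hordk] at this
    omega
  have hF0 : F 0 ≠ 0 := ne_of_ord hF hF0' hFord0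
  have hordne : ∀ z, z ≠ 0 → analyticOrderNatAt G z = analyticOrderNatAt F z := by
    intro z hz
    have := hord z
    rw [ord_eq_zero (F := fun z : ℂ => z ^ k) (pow_ne_zero _ hz), zero_add] at this
    exact this
  -- `F` is even
  have hdense : Dense ({0}ᶜ : Set ℂ) := dense_compl_singleton 0
  have hrel : ∀ z, F (-z) = (ε * (-1) ^ k) * F z := by
    have hc1 : Continuous fun z => F (-z) := hF.continuous.comp continuous_neg
    have hc2 : Continuous fun z => (ε * (-1) ^ k) * F z := continuous_const.mul hF.continuous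
    have hEq : EqOn (fun z => F (-z)) (fun z => (ε * (-1) ^ k) * F z) ({0}ᶜ : Set ℂ) := by
      intro z hz
      have hz0 : z ≠ 0 := hz
      have h1 := hs z
      rw [hGF, hGF] at h1
      have h2 : (-z) ^ k = (-1) ^ k * z ^ k := by rw [← mul_pow]; simp
      have h3 : ((-1 : ℂ) ^ k) * ((-1) ^ k) = 1 := by rw [← mul_pow]; simp
      have h4 : z ^ k ≠ 0 := pow_ne_zero _ hz0
      have h5 : z ^ k * F (-z) = z ^ k * ((ε * (-1) ^ k) * F z) := by
        calc z ^ k * F (-z) = ((-1 : ℂ) ^ k * (-1) ^ k) * (z ^ k * F (-z)) := by rw [h3, one_mul]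
          _ = (-1) ^ k * ((-z) ^ k * F (-z)) := by rw [h2]; ring
          _ = (-1) ^ k * (ε * (z ^ k * F z)) := by rw [h1]
          _ = _ := by ring
      exact mul_left_cancel₀ h4 h5
    exact fun z => congrFun (Continuous.ext_on hdense hc1 hc2 hEq) z
  have hc : ε * (-1) ^ k = 1 := by
    have h1 := hrel 0
    rw [neg_zero] at h1
    have h2 : (ε * (-1) ^ k - 1) * F 0 = 0 := by
      rw [sub_mul, one_mul, ← h1, sub_self]
    rcases mul_eq_zero.1 h2 with h | h
    · exact sub_eq_zero.1 h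
    · exact absurd h hF0
  have heven : ∀ z, F (-z) = F z := fun z => by rw [hrel z, hc, one_mul]
  -- growth of `F`
  have hgF : Grow F (C * 2 ^ κ) κ := by
    have h2κ : (1 : ℝ) ≤ 2 ^ κ := Real.one_le_rpow (by norm_num) hκ
    have hbig : ∀ z : ℂ, 1 ≤ ‖z‖ → ‖F z‖ ≤ Real.exp (C * (1 + ‖z‖) ^ κ) := by
      intro z hz
      have h1 := hgr z
      rw [hGF, norm_mul, norm_pow] at h1
      have h2 : 1 ≤ ‖z‖ ^ k := one_le_pow₀ hz
      calc ‖F z‖ = 1 * ‖F z‖ := (one_mul _).symm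
        _ ≤ ‖z‖ ^ k * ‖F z‖ := mul_le_mul_of_nonneg_right h2 (norm_nonneg _)
        _ ≤ _ := h1
    intro z
    rcases le_or_gt 1 ‖z‖ with hz | hz
    · refine (hbig z hz).trans (Real.exp_le_exp.2 ?_)
      have h3 : 0 ≤ (1 + ‖z‖) ^ κ := by positivity
      nlinarith [mul_nonneg hC h3]
    · have h1 : ‖F z‖ ≤ Real.exp (C * 2 ^ κ) := by
        refine norm_le_of_forall_mem_frontier_norm_le (U := ball (0 : ℂ) 1) isBounded_ball
          hF.diffContOnCl (fun v hv => ?_) ?_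
        · rw [frontier_ball _ one_ne_zero, mem_sphere_zero_iff_norm] at hv
          have := hbig v hv.ge
          rw [hv] at this
          norm_num at this
          exact this
        · rw [closure_ball _ one_ne_zero, mem_closedBall_zero_iff]
          exact hz.le
      refine h1.trans (Real.exp_le_exp.2 ?_)
      have h3 : 1 ≤ (1 + ‖z‖) ^ κ := Real.one_le_rpow (by linarith [norm_nonneg z]) hκ
      have h4 : 0 ≤ C * 2 ^ κ := by positivity
      nlinarith
  have hC' : 0 ≤ C * 2 ^ κ := by positivity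
  -- orders
  have hordG : ∀ z, analyticOrderNatAt G z = (if z = 0 then k else 0) + analyticOrderNatAt F z := by
    intro z
    by_cases hz : z = 0
    · rw [if_pos hz, hz, hFord0, hk]; rfl
    · rw [if_neg hz, zero_add]; exact hordne z hz
  have hsuppG : ∀ z, analyticOrderNatAt G z ≠ 0 → G z = 0 := fun z hz =>
    apply_eq_zero_of_analyticOrderNatAt_ne_zero hz
  constructor
  · have h1 := summ hC' hκ hκ2 hF hgF hF0
    have h2 : Summable fun z : ℂ => (((if z = 0 then k else 0 : ℕ) : ℝ)) / (1 + ‖z‖) ^ 2 := by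
      refine summable_of_ne_finset_zero (s := {0}) fun z hz => ?_
      rw [Finset.mem_singleton] at hz
      rw [if_neg hz]
      simp
    have h3 : Summable fun z : ℂ => (analyticOrderNatAt G z : ℝ) / (1 + ‖z‖) ^ 2 := by
      refine (h2.add h1).congr fun z => ?_
      rw [hordG z]
      push_cast
      ring
    exact h3.subtype {z : ℂ | G z = 0}
  · intro w hw
    have hFw : F w ≠ 0 := by
      intro h
      exact hw (by rw [hGF, h, mul_zero])
    have h1 := pfF hC' hκ hκ2 hF hgF hF0 heven hFw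
    have h2 : HasSum (fun z : ℂ => (((if z = 0 then k else 0 : ℕ) : ℂ)) * (w / (w ^ 2 - z ^ 2)))
        ((k : ℂ) * (w / (w ^ 2))) := by
      have h3 := hasSum_single (f := fun z : ℂ => (((if z = 0 then k else 0 : ℕ) : ℂ)) * (w / (w ^ 2 - z ^ 2)))
        0 (fun z hz => by
          rw [if_neg hz]
          simp)
      simpa using h3
    have h3 := h2.add h1
    have hval : (k : ℂ) * (w / (w ^ 2)) + deriv F w / F w = deriv G w / G w := by
      have e : G = fun z => z ^ k * F z := funext hGF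
      rcases Nat.eq_zero_or_pos k with hk0 | hk0
      · have e2 : G = F := by
          rw [e, hk0]
          funext z
          simp
        rw [hk0, e2]
        simp
      · have hw0 : w ≠ 0 := by
          rintro rfl
          apply hw
          rw [hGF, zero_pow (by omega), zero_mul]
        have h4 : logDeriv G w = logDeriv (fun z => z ^ k * F z) w := congrArg (fun f => logDeriv f w) e
        have h5 := logDeriv_mul (f := fun z : ℂ => z ^ k) (g := F) w (pow_ne_zero _ hw0) hFw (hpd w) (hF w)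
        have h6 : logDeriv (fun z : ℂ => z ^ k) w = k / w := logDeriv_pow w k
        rw [← logDeriv_apply G, h4, h5, h6, logDeriv_apply]
        congr 1
        field_simp
    rw [hval] at h3
    have h4 : HasSum (fun z : ℂ => (analyticOrderNatAt G z : ℂ) * (w / (w ^ 2 - z ^ 2))) (deriv G w / G w) := by
      refine h3.congr_fun ?_ |> fun h => h
      intro z
      rw [hordG z]
      push_cast
      ring
    have hsupp : Function.support (fun z : ℂ => (analyticOrderNatAt G z : ℂ) * (w / (w ^ 2 - z ^ 2))) ⊆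
        {z : ℂ | G z = 0} := by
      intro z hz
      apply hsuppG
      intro h
      apply hz
      simp only
      rw [h]
      simp
    exact (hasSum_subtype_iff_of_support_subset hsupp).2 h4

/-- the case of order `6/5` -/
theorem pf {G : ℂ → ℂ} (hd : Differentiable ℂ G) (h0 : ∃ z, G z ≠ 0)
    (hg : ∃ C : ℝ, 0 ≤ C ∧ ∀ z : ℂ, ‖G z‖ ≤ Real.exp (C * (1 + ‖z‖) ^ (6 / 5 : ℝ)))
    {ε : ℂ} (hε : ε = 1 ∨ ε = -1) (hs : ∀ z, G (-z) = ε * G z) :
    Summable (fun ρ : {z : ℂ // G z = 0} => (analyticOrderNatAt G (ρ : ℂ) : ℝ) / (1 + ‖(ρ : ℂ)‖) ^ 2) ∧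
    ∀ w : ℂ, G w ≠ 0 → HasSum (fun ρ : {z : ℂ // G z = 0} =>
      (analyticOrderNatAt G (ρ : ℂ) : ℂ) * (w / (w ^ 2 - (ρ : ℂ) ^ 2))) (deriv G w / G w) :=
  pf_gen (κ := 6 / 5) (by norm_num) (by norm_num) hd h0 hg hε hs

end Pool.Agent.Helper39.PF
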